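import Pool.Agent.Helper65.HF.StN

/-!
Project HF (MP_b56c98_ag), module EEB: bounds for the expected values.
-/

namespace Pool.Agent.Helper38.HF

open Pool.Agent.Helper65.HF Pool.Agent.Helper45

theorem EE_zero (j M r : ℕ) : EE j M r 0 = 1 := by
  unfold EE
  simp

theorem hEEB : Pool.Agent.Helper65.HF.sEEB := by
  intro hASY hGAP j d cs hj hz
  obtain ⟨η, g1, G2, hη, hg1, hG2, p1, p2, p3, p4, p5⟩ := hGAP j d cs hj hz
  have hcs : 0 < cs := hz.1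
  have hΓ : 0 ≤ cs + η := by linarith
  choose Cf hCf hE using fun c : ℕ => hASY j c (cs + η) (by omega) hΓ
  obtain ⟨C, hCd⟩ : ∃ C : ℝ, C = ∑ c ∈ Finset.range (d + 1), Cf c := ⟨_, rfl⟩
  have hCle : ∀ c ≤ d, Cf c ≤ C := by
    intro c hc
    rw [hCd]
    exact Finset.single_le_sum (f := Cf) (fun i _ => (hCf i).le)
      (Finset.mem_range.2 (Nat.lt_succ_of_le hc))
  have hC0 : 0 < C := lt_of_lt_of_le (hCf d) (hCle d le_rfl)
  have key : ∀ c ≤ d, ∀ M r : ℕ, 1 ≤ M → (r : ℝ) ≤ (cs + η) * (M : ℝ) ^ j →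
      |(EE j M r c : ℝ) - (M : ℝ) ^ c * thr j c ((r : ℝ) / (M : ℝ) ^ j)| ≤
        C * (M : ℝ) ^ (c - 1) := by
    intro c hc M r hM hr
    refine (hE c M r hM hr).trans ?_
    exact mul_le_mul_of_nonneg_right (hCle c hc) (by positivity)
  have hx : ∀ (M r : ℕ) (y : ℝ), 1 ≤ M → (r : ℝ) ≤ y * (M : ℝ) ^ j →
      0 ≤ (r : ℝ) / (M : ℝ) ^ j ∧ (r : ℝ) / (M : ℝ) ^ j ≤ y := by
    intro M r y hM hr
    have hMp : (0 : ℝ) < (M : ℝ) ^ j := by
      have : (0 : ℝ) < M := by exact_mod_cast hM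
      positivity
    exact ⟨by positivity, by rwa [div_le_iff₀ hMp]⟩
  have hpow : ∀ (c M : ℕ), 1 ≤ M → (M : ℝ) ^ (c - 1) ≤ (M : ℝ) ^ c := by
    intro c M hM
    exact pow_le_pow_right₀ (by exact_mod_cast hM) (Nat.sub_le _ _)
  refine ⟨η, g1 / 2, G2 + C + 1, max 1 ⌈2 * C / g1⌉₊, hη, by positivity, by linarith,
    le_max_left _ _, ?_, ?_, ?_, ?_, p5⟩
  · intro c hc M r hM hr
    have hM1 : 1 ≤ M := (le_max_left _ _).trans hM
    have hM2 : 2 * C / g1 ≤ M := (Nat.le_ceil _).trans (by exact_mod_cast (le_max_right _ _).trans hM)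
    have hMr : (1 : ℝ) ≤ M := by exact_mod_cast hM1
    obtain ⟨x0, x1⟩ := hx M r _ hM1 hr
    obtain ⟨x, hxd⟩ : ∃ x : ℝ, x = (r : ℝ) / (M : ℝ) ^ j := ⟨_, rfl⟩
    rw [← hxd] at x0 x1
    have t1 := p1 c hc x x0 x1
    have t2 := p4 c hc.le x x0 x1
    rcases Nat.eq_zero_or_pos c with h0 | h0
    · subst h0
      rw [EE_zero]
      have t3 := p1 0 hc 0 le_rfl hΓ
      rw [thr_at_zero] at t3
      norm_num at t3
      norm_num
      constructor
      · linarith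
      · linarith
    · have t3 := key c hc.le M r hM1 hr
      rw [← hxd] at t3
      have t4 := abs_le.1 t3
      have t5 := abs_le.1 t2
      have e1 : (M : ℝ) ^ c = (M : ℝ) ^ (c - 1) * M := by
        rw [← pow_succ]
        congr 1
        omega
      have hp : (0 : ℝ) < (M : ℝ) ^ (c - 1) := by positivity
      have hp' : (0 : ℝ) < (M : ℝ) ^ c := by positivity
      have hCM : C ≤ g1 / 2 * M := by
        rw [div_le_iff₀ hg1] at hM2
        linarith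
      have hCM' : C * (M : ℝ) ^ (c - 1) ≤ g1 / 2 * (M : ℝ) ^ c := by
        rw [e1]
        have := mul_le_mul_of_nonneg_right hCM hp.le
        linarith
      have hCM'' : C * (M : ℝ) ^ (c - 1) ≤ C * (M : ℝ) ^ c :=
        mul_le_mul_of_nonneg_left (hpow c M hM1) hC0.le
      have t6 : (M : ℝ) ^ c * g1 ≤ (M : ℝ) ^ c * thr j c x := mul_le_mul_of_nonneg_left t1 hp'.le
      have t7 : (M : ℝ) ^ c * thr j c x ≤ (M : ℝ) ^ c * G2 := mul_le_mul_of_nonneg_left t5.2 hp'.le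
      constructor
      · linarith [t4.1]
      · nlinarith [t4.2]
  · intro M r hM1 hr
    have hMr : (1 : ℝ) ≤ M := by exact_mod_cast hM1
    obtain ⟨x0, x1⟩ := hx M r _ hM1 hr
    have t3 := key d le_rfl M r hM1 hr
    obtain ⟨x, hxd⟩ : ∃ x : ℝ, x = (r : ℝ) / (M : ℝ) ^ j := ⟨_, rfl⟩
    rw [← hxd] at x0 x1 t3
    have t2 := p4 d le_rfl x x0 x1
    have hp' : (0 : ℝ) < (M : ℝ) ^ d := by positivity
    have hCM'' : C * (M : ℝ) ^ (d - 1) ≤ C * (M : ℝ) ^ d :=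
      mul_le_mul_of_nonneg_left (hpow d M hM1) hC0.le
    have t4 := abs_le.1 t3
    have t5 := abs_le.1 t2
    have t6 : (M : ℝ) ^ d * -G2 ≤ (M : ℝ) ^ d * thr j d x := mul_le_mul_of_nonneg_left t5.1 hp'.le
    have t7 : (M : ℝ) ^ d * thr j d x ≤ (M : ℝ) ^ d * G2 := mul_le_mul_of_nonneg_left t5.2 hp'.le
    rw [abs_le]
    constructor
    · nlinarith [t4.1]
    · nlinarith [t4.2]
  · intro M r hM1 hr
    have hMr : (1 : ℝ) ≤ M := by exact_mod_cast hM1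
    have hp0 : (0 : ℝ) < (M : ℝ) ^ j := by positivity
    have hr' : (r : ℝ) ≤ (cs + η) * (M : ℝ) ^ j := by nlinarith
    obtain ⟨x0, x1⟩ := hx M r _ hM1 hr
    have t3 := key d le_rfl M r hM1 hr'
    obtain ⟨x, hxd⟩ : ∃ x : ℝ, x = (r : ℝ) / (M : ℝ) ^ j := ⟨_, rfl⟩
    rw [← hxd] at x0 x1 t3 ⊢
    obtain ⟨t1, t2⟩ := p2 x x0 x1
    have t4 := abs_le.1 t3
    have hp' : (0 : ℝ) < (M : ℝ) ^ d := by positivity
    have hp : (0 : ℝ) < (M : ℝ) ^ (d - 1) := by positivity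
    have t6 : (M : ℝ) ^ d * (g1 * (cs - x)) ≤ (M : ℝ) ^ d * thr j d x :=
      mul_le_mul_of_nonneg_left t1 hp'.le
    have t7 : (M : ℝ) ^ d * thr j d x ≤ (M : ℝ) ^ d * (G2 * (cs - x)) :=
      mul_le_mul_of_nonneg_left t2 hp'.le
    have hcx : 0 ≤ cs - x := by linarith
    have u1 : 0 ≤ g1 * (cs - x) * (M : ℝ) ^ d := by positivity
    have u2 : 0 ≤ G2 * (M : ℝ) ^ (d - 1) := by positivity
    have u3 : 0 ≤ C * (cs - x) * (M : ℝ) ^ d := by positivity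
    have u4 : 0 ≤ (cs - x) * (M : ℝ) ^ d := by positivity
    constructor
    · linarith [t4.1]
    · linarith [t4.2]
  · intro M r hM1 hr hr'
    have hMr : (1 : ℝ) ≤ M := by exact_mod_cast hM1
    have hp0 : (0 : ℝ) < (M : ℝ) ^ j := by positivity
    obtain ⟨x0, x1⟩ := hx M r _ hM1 hr'
    have x2 : cs ≤ (r : ℝ) / (M : ℝ) ^ j := by rwa [le_div_iff₀ hp0]
    have t3 := key d le_rfl M r hM1 hr'
    obtain ⟨x, hxd⟩ : ∃ x : ℝ, x = (r : ℝ) / (M : ℝ) ^ j := ⟨_, rfl⟩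
    rw [← hxd] at x0 x1 x2 t3 ⊢
    have t2 := p3 x x2 x1
    have t4 := abs_le.1 t3
    have hp' : (0 : ℝ) < (M : ℝ) ^ d := by positivity
    have hp : (0 : ℝ) < (M : ℝ) ^ (d - 1) := by positivity
    have t7 : (M : ℝ) ^ d * thr j d x ≤ (M : ℝ) ^ d * -(g1 * (x - cs)) :=
      mul_le_mul_of_nonneg_left t2 hp'.le
    have hcx : 0 ≤ x - cs := by linarith
    have u1 : 0 ≤ g1 * (x - cs) * (M : ℝ) ^ d := by positivity
    have u2 : 0 ≤ G2 * (M : ℝ) ^ (d - 1) := by positivity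
    linarith [t4.2]

end Pool.Agent.Helper38.HF
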