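import Pool.Agent.Helper65.HF.StC

/-!
Project HF (MP_b56c98_ag), module FKG: correlation inequality for regular tails.
-/

namespace Pool.Agent.Helper38.HF

open Pool.Agent.Helper65.HF

/-- the list of a function -/
def L {t M : ℕ} (x : Fin t → Fin M) : List ℕ := List.ofFn fun u => ((x u : Fin M) : ℕ)

/-- the functions which give regular tails -/
def P (M : ℕ) (ν : ℕ → ℕ) (i t a : ℕ) (x : Fin t → Fin M) : Prop :=
  (∀ u v, u < v → (x u : ℕ) ≤ (x v : ℕ)) ∧ (∀ u, a ≤ (x u : ℕ)) ∧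
    ∀ u : Fin t, ν (i + u + 1) ≤ (x u : ℕ)

theorem L_mem {M : ℕ} {ν : ℕ → ℕ} {i t a : ℕ} (x : Fin t → Fin M) :
    L x ∈ tl M ν i t a ↔ P M ν i t a x := by
  rw [mem_tl]
  unfold L P
  constructor
  · rintro ⟨⟨_, h1, _⟩, h2, h3⟩
    refine ⟨?_, ?_, ?_⟩
    · intro u v huv
      exact (List.pairwise_ofFn.1 h1) huv
    · intro u
      apply h2
      rw [List.mem_ofFn]
      exact ⟨u, rfl⟩
    · intro u
      have h := h3 u u.2
      rw [List.getD_eq_getElem _ _ (by rw [List.length_ofFn]; exact u.2), List.getElem_ofFn] at h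
      exact h
  · rintro ⟨h1, h2, h3⟩
    refine ⟨⟨List.length_ofFn, ?_, ?_⟩, ?_, ?_⟩
    · exact List.pairwise_ofFn.2 fun u v huv => h1 u v huv
    · intro y hy
      rw [List.mem_ofFn] at hy
      obtain ⟨u, rfl⟩ := hy
      exact (x u).2
    · intro y hy
      rw [List.mem_ofFn] at hy
      obtain ⟨u, rfl⟩ := hy
      exact h2 u
    · intro u hu
      rw [List.getD_eq_getElem _ _ (by rw [List.length_ofFn]; exact hu), List.getElem_ofFn]
      exact h3 ⟨u, hu⟩

theorem L_le {t M : ℕ} {x y : Fin t → Fin M} (h : x ≤ y) : LeL (L x) (L y) := by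
  unfold LeL L
  rw [List.forall₂_iff_get]
  refine ⟨by rw [List.length_ofFn, List.length_ofFn], ?_⟩
  intro u h1 h2
  rw [List.get_eq_getElem, List.get_eq_getElem, List.getElem_ofFn, List.getElem_ofFn]
  exact h _

theorem L_inj {t M : ℕ} {x y : Fin t → Fin M} (h : L x = L y) : x = y := by
  have h1 := List.ofFn_injective h
  funext u
  exact Fin.ext (congrFun h1 u)

open Classical in
theorem sum_T {M : ℕ} {ν : ℕ → ℕ} {i t a : ℕ} (h : List ℕ → ℝ) :
    ∑ τ ∈ tl M ν i t a, h τ = ∑ x : Fin t → Fin M, if P M ν i t a x then h (L x) else 0 := by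
  rw [← Finset.sum_filter]
  symm
  refine Finset.sum_bij (fun x _ => L x) ?_ ?_ ?_ ?_
  · intro x hx
    exact (L_mem x).2 (Finset.mem_filter.1 hx).2
  · intro x _ y _ hxy
    exact L_inj hxy
  · intro τ hτ
    obtain ⟨⟨h1, h2, h3⟩, _⟩ := mem_tl.1 hτ
    subst h1
    have e : L (fun u => ⟨τ.get u, h3 _ (List.get_mem τ u)⟩ : Fin τ.length → Fin M) = τ :=
      List.ofFn_get τ
    refine ⟨_, ?_, e⟩
    rw [Finset.mem_filter]
    refine ⟨Finset.mem_univ _, ?_⟩
    rw [← L_mem, e]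
    exact hτ
  · intro x _
    rfl

theorem P_inf {M : ℕ} {ν : ℕ → ℕ} {i t a : ℕ} {x y : Fin t → Fin M} (hx : P M ν i t a x)
    (hy : P M ν i t a y) : P M ν i t a (x ⊓ y) ∧ P M ν i t a (x ⊔ y) := by
  obtain ⟨x1, x2, x3⟩ := hx
  obtain ⟨y1, y2, y3⟩ := hy
  have e1 : ∀ u, (((x ⊓ y) u : Fin M) : ℕ) = min (x u : ℕ) (y u : ℕ) := by
    intro u
    rw [Pi.inf_apply]
    exact Fin.coe_min (x u) (y u)
  have e2 : ∀ u, (((x ⊔ y) u : Fin M) : ℕ) = max (x u : ℕ) (y u : ℕ) := by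
    intro u
    rw [Pi.sup_apply]
    exact Fin.coe_max (x u) (y u)
  refine ⟨⟨?_, ?_, ?_⟩, ⟨?_, ?_, ?_⟩⟩
  · intro u v huv
    rw [e1, e1]
    exact min_le_min (x1 u v huv) (y1 u v huv)
  · intro u
    rw [e1]
    exact le_min (x2 u) (y2 u)
  · intro u
    rw [e1]
    exact le_min (x3 u) (y3 u)
  · intro u v huv
    rw [e2, e2]
    exact max_le_max (x1 u v huv) (y1 u v huv)
  · intro u
    rw [e2]
    exact (x2 u).trans (le_max_left _ _)
  · intro u
    rw [e2]
    exact (x3 u).trans (le_max_left _ _)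

open Classical in
/-- monotone extension -/
noncomputable def ext {t M : ℕ} (Q : (Fin t → Fin M) → Prop) (f : List ℕ → ℝ)
    (x : Fin t → Fin M) : NNReal :=
  (Finset.univ.filter fun y => Q y ∧ y ≤ x).sup fun y => Real.toNNReal (f (L y))

theorem ext_mono {t M : ℕ} (Q : (Fin t → Fin M) → Prop) (f : List ℕ → ℝ) :
    Monotone (fun x => (ext Q f x : ℝ)) := by
  classical
  intro x y hxy
  simp only
  rw [NNReal.coe_le_coe]
  unfold ext
  refine Finset.sup_mono ?_
  intro z hz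
  rw [Finset.mem_filter] at hz ⊢
  exact ⟨hz.1, hz.2.1, hz.2.2.trans hxy⟩

theorem ext_eq {t M : ℕ} (Q : (Fin t → Fin M) → Prop) (f : List ℕ → ℝ)
    (h0 : ∀ x, Q x → 0 ≤ f (L x)) (h1 : ∀ x y, Q x → Q y → x ≤ y → f (L x) ≤ f (L y))
    (x : Fin t → Fin M) (hx : Q x) : (ext Q f x : ℝ) = f (L x) := by
  classical
  rw [← Real.coe_toNNReal (f (L x)) (h0 x hx), NNReal.coe_inj]
  unfold ext
  apply le_antisymm
  · refine Finset.sup_le ?_
    intro y hy
    rw [Finset.mem_filter] at hy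
    exact Real.toNNReal_le_toNNReal (h1 y x hy.2.1 hx hy.2.2)
  · exact Finset.le_sup (f := fun y => Real.toNNReal (f (L y)))
      (Finset.mem_filter.2 ⟨Finset.mem_univ _, hx, le_rfl⟩)

theorem hFKG : Pool.Agent.Helper65.HF.sFKG := by
  classical
  intro M ν i t a f g f0 g0 fm gm
  obtain ⟨Q, hQ⟩ : ∃ Q : (Fin t → Fin M) → Prop, Q = P M ν i t a := ⟨_, rfl⟩
  have hQm : ∀ x, Q x ↔ L x ∈ tl M ν i t a := fun x => by rw [hQ]; exact (L_mem x).symm
  have ef := ext_eq Q f (fun x hx => f0 _ ((hQm x).1 hx))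
    (fun x y hx hy hxy => fm _ ((hQm x).1 hx) _ ((hQm y).1 hy) (L_le hxy))
  have eg := ext_eq Q g (fun x hx => g0 _ ((hQm x).1 hx))
    (fun x y hx hy hxy => gm _ ((hQm x).1 hx) _ ((hQm y).1 hy) (L_le hxy))
  have key := fkg (α := Fin t → Fin M) (β := ℝ) (μ := fun x => if Q x then (1 : ℝ) else 0)
    (f := fun x => (ext Q f x : ℝ)) (g := fun x => (ext Q g x : ℝ))
    (fun x => by simp only [Pi.zero_apply]; split_ifs <;> norm_num)
    (fun x => NNReal.coe_nonneg _) (fun x => NNReal.coe_nonneg _) (ext_mono Q f) (ext_mono Q g)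
    (fun x y => by
      by_cases hx : Q x
      · by_cases hy : Q y
        · have h := P_inf (hQ ▸ hx) (hQ ▸ hy)
          rw [← hQ] at h
          simp only [if_pos hx, if_pos hy, if_pos h.1, if_pos h.2]
          exact le_rfl
        · simp only [if_neg hy, mul_zero]
          split_ifs <;> norm_num
      · simp only [if_neg hx, zero_mul]
        split_ifs <;> norm_num)
  have s1 : ∑ x, (fun x => if Q x then (1 : ℝ) else 0) x * (fun x => (ext Q f x : ℝ)) x =
      ∑ τ ∈ tl M ν i t a, f τ := by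
    rw [sum_T, ← hQ]
    refine Finset.sum_congr rfl fun x _ => ?_
    by_cases hx : Q x
    · simp only [if_pos hx, one_mul, ef x hx]
    · simp only [if_neg hx, zero_mul]
  have s2 : ∑ x, (fun x => if Q x then (1 : ℝ) else 0) x * (fun x => (ext Q g x : ℝ)) x =
      ∑ τ ∈ tl M ν i t a, g τ := by
    rw [sum_T, ← hQ]
    refine Finset.sum_congr rfl fun x _ => ?_
    by_cases hx : Q x
    · simp only [if_pos hx, one_mul, eg x hx]
    · simp only [if_neg hx, zero_mul]
  have s3 : ∑ x, (fun x => if Q x then (1 : ℝ) else 0) x *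
      ((fun x => (ext Q f x : ℝ)) x * (fun x => (ext Q g x : ℝ)) x) =
      ∑ τ ∈ tl M ν i t a, f τ * g τ := by
    rw [sum_T, ← hQ]
    refine Finset.sum_congr rfl fun x _ => ?_
    by_cases hx : Q x
    · simp only [if_pos hx, one_mul, ef x hx, eg x hx]
    · simp only [if_neg hx, zero_mul]
  have s4 : ∑ x, (fun x => if Q x then (1 : ℝ) else 0) x = ((tl M ν i t a).card : ℝ) := by
    have : ((tl M ν i t a).card : ℝ) = ∑ τ ∈ tl M ν i t a, (1 : ℝ) := by simp
    rw [this, sum_T, ← hQ]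
  rw [s1, s2, s3, s4] at key
  exact key

end Pool.Agent.Helper38.HF
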