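import Pool.Agent.Helper65.HF.StC

/-!
Project HF (MP_b56c98_ag), module TRA: transport inequality for use above the threshold.
-/

namespace Pool.Agent.Helper38.HF.TRA

open Pool.Agent.Helper65.HF

theorem lel_refl (l : List ℕ) : LeL l l := by
  induction l with
  | nil => exact List.Forall₂.nil
  | cons a l ih => exact List.Forall₂.cons le_rfl ih

theorem lel_append {l₁ l₂ m₁ m₂ : List ℕ} (h : LeL l₁ l₂) (h' : LeL m₁ m₂) :
    LeL (l₁ ++ m₁) (l₂ ++ m₂) := by
  induction h with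
  | nil => exact h'
  | cons hab _ ih => exact List.Forall₂.cons hab ih

theorem lel_replicate {N : ℕ} (l : List ℕ) (h : ∀ x ∈ l, x ≤ N) :
    LeL l (List.replicate l.length N) := by
  induction l with
  | nil => exact List.Forall₂.nil
  | cons a l ih =>
    rw [List.length_cons, List.replicate_succ]
    exact List.Forall₂.cons (h a List.mem_cons_self)
      (ih fun x hx => h x (List.mem_cons_of_mem _ hx))

theorem srt_append_replicate {N j : ℕ} {l : List ℕ} (hl : Srt l) (h : ∀ x ∈ l, x ≤ N) :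
    Srt (l ++ List.replicate j N) := by
  unfold Srt
  rw [List.pairwise_append]
  refine ⟨hl, ?_, ?_⟩
  · exact List.pairwise_replicate.2 (Or.inr le_rfl)
  · intro a ha b hb
    rw [List.eq_of_mem_replicate hb]
    exact h a ha

theorem srt_append_one {N : ℕ} {l : List ℕ} (hl : Srt l) (h : ∀ x ∈ l, x ≤ N) :
    Srt (l ++ [N]) := by
  have := srt_append_replicate (j := 1) hl h
  simpa using this

end Pool.Agent.Helper38.HF.TRA

namespace Pool.Agent.Helper38.HF

open Pool.Agent.Helper65.HF Pool.Agent.Helper38.HF.TRA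

theorem hTRA : Pool.Agent.Helper65.HF.sTRA := by
  intro hALU hUPB hFKG hSPL hDEC hCNT hOML hEXT hLST hREG j d M ν0 ν St hj hjd hν hν0 hUp hPre hnil hreg X hX
  obtain ⟨N, hN⟩ : ∃ N, M = N + 1 := ⟨M - 1, by omega⟩
  have hN1 : M - 1 = N := by omega
  rw [hN1] at hX ⊢
  obtain ⟨e, he⟩ : ∃ e, e = d - j := ⟨_, rfl⟩
  obtain ⟨c, hc⟩ : ∃ c, c = d - 1 := ⟨_, rfl⟩
  have hd : d = c + 1 := by omega
  have hec : e + (j - 1) = c := by omega
  have hc1 : 1 ≤ c := by omega
  rw [← he, ← hc]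
  have hle : ∀ {n : ℕ} {l : List ℕ}, l ∈ srt M n → ∀ x ∈ l, x ≤ N := by
    intro n l hl x hx
    have := (mem_srt.1 hl).2.2 x hx
    omega
  -- (1)
  have h1 := hLST.1 N c St
  rw [← hN, ← hd] at h1
  obtain ⟨U, hU⟩ : ∃ U : List ℕ → Prop, U = fun v => St (v ++ [N]) := ⟨_, rfl⟩
  rw [← hU] at h1
  -- (2)
  have h2 := hLST.2 N d j St (by omega)
  rw [← hN, ← he] at h2
  obtain ⟨R, hR⟩ : ∃ R : List ℕ → Prop, R = fun w => St (w ++ List.replicate j N) := ⟨_, rfl⟩
  rw [← hR] at h2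
  -- (3)
  have h3 := hUPB hFKG hSPL hDEC M c ν0 ν St U hc1 hν hν0 hPre
    (by
      intro l hl hl'
      rw [hU] at hl'
      exact hPre l N (srt_append_one (mem_srt.1 hl).2.1 (hle hl)) hl')
    (by
      intro l hl l' hl' hll h
      rw [hU] at h ⊢
      exact hUp _ _ (srt_append_one (mem_srt.1 hl).2.1 (hle hl))
        (srt_append_one (mem_srt.1 hl').2.1 (hle hl')) (lel_append hll (lel_refl _)) h)
  -- (4)
  have hRup : ∀ τ ∈ tl M ν 0 e 0, ∀ τ' ∈ tl M ν 0 e 0, LeL τ τ' → R τ → R τ' := by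
    intro τ hτ τ' hτ' hl h
    have m1 := mem_srt.2 (mem_tl.1 hτ).1
    have m2 := mem_srt.2 (mem_tl.1 hτ').1
    rw [hR] at h ⊢
    exact hUp _ _ (srt_append_replicate (mem_srt.1 m1).2.1 (hle m1))
      (srt_append_replicate (mem_srt.1 m2).2.1 (hle m2)) (lel_append hl (lel_refl _)) h
  have h4 := hALU M ν 0 e (j - 1) 0 R hRup
  rw [hec] at h4
  have h4' : num (tl M ν 0 c 0) U ≤ num (tl M ν 0 c 0) (fun v => R (v.take e)) := by
    refine num_mono ?_
    intro v hv hvU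
    have m1 := mem_srt.2 (mem_tl.1 hv).1
    have hs := (mem_srt.1 m1).2.1
    have hlen := (mem_srt.1 m1).1
    rw [hU] at hvU
    rw [hR]
    have e1 : v ++ [N] = v.take e ++ (v.drop e ++ [N]) := by
      rw [← List.append_assoc, List.take_append_drop]
    have hlen2 : (v.drop e ++ [N]).length = j := by
      rw [List.length_append, List.length_drop, hlen, List.length_singleton]
      omega
    have hs' : Srt (v.take e) := List.Pairwise.sublist (List.take_sublist e v) hs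
    have hle' : ∀ x ∈ v.take e, x ≤ N := fun x hx => hle m1 x (List.mem_of_mem_take hx)
    refine hUp (v ++ [N]) _ (srt_append_one hs (hle m1)) (srt_append_replicate hs' hle') ?_ hvU
    rw [e1]
    refine lel_append (lel_refl _) ?_
    have := lel_replicate (N := N) (v.drop e ++ [N]) (by
      intro x hx
      rw [List.mem_append] at hx
      rcases hx with hx | hx
      · exact hle m1 x (List.mem_of_mem_drop hx)
      · rw [List.mem_singleton] at hx
        exact hx.le)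
    rw [hlen2] at this
    exact this
  have h4'' : num (tl M ν 0 e 0) R ≤ num (srt M e) R :=
    num_mono_set R fun l hl => mem_srt.2 (mem_tl.1 hl).1
  -- (5)
  have hExt : Ext M c ν St := by
    intro s hs l hl b hb hlb hνb hSt
    refine hREG hLST St hPre b s (hreg s (by omega) b hνb hb) l ?_ hSt
    rw [mem_srt] at hl ⊢
    exact ⟨hl.1, hl.2.1, fun x hx => Nat.lt_succ_of_le (hlb x hx)⟩
  have h5 := hOML hEXT M c c ν St hExt hnil le_rfl
  have h6 := hCNT hDEC M e ν St hPre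
  -- real numbers
  obtain ⟨S, hS⟩ : ∃ S : ℝ, S = ∑ s ∈ Finset.Icc 1 e, (num (srt (ν s) s) St : ℝ) *
    (M : ℝ) ^ (e - s) := ⟨_, rfl⟩
  obtain ⟨D, hD⟩ : ∃ D : ℝ, D = ∑ s ∈ Finset.Icc 1 c, (num (srt (ν s) s) St : ℝ) *
    (M : ℝ) ^ (c - s) * (c.factorial : ℝ) / ((M : ℝ) - ν0) ^ c := ⟨_, rfl⟩
  rw [← hS, ← hD]
  have hMν : (0 : ℝ) < (M : ℝ) - ν0 := by
    have : (ν0 : ℝ) < M := by exact_mod_cast hν0
    linarith
  have hD0 : 0 ≤ D := by
    rw [hD]
    refine Finset.sum_nonneg fun s _ => ?_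
    positivity
  have r1 : (num (srt M d) St : ℝ) = num (srt N d) St + num (srt M c) U := by exact_mod_cast h1
  have r2 : (X : ℝ) + num (srt M e) R ≤ num (srt M d) St := by
    have : X + num (srt M e) R ≤ num (srt M d) St := by omega
    exact_mod_cast this
  have r3 : (num (srt M c) U : ℝ) ≤ (1 + D) * num (tl M ν 0 c 0) U := by
    have h3' : (num (srt M c) U : ℝ) * ((M : ℝ) - ν0) ^ c ≤ num (tl M ν 0 c 0) U *
        (((M : ℝ) - ν0) ^ c + ∑ s ∈ Finset.Icc 1 c, (num (srt (ν s) s) St : ℝ) *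
        (M : ℝ) ^ (c - s) * (c.factorial : ℝ)) := by
      have := h3
      have hcast : ((M - ν0 : ℕ) : ℝ) = (M : ℝ) - ν0 := by
        rw [Nat.cast_sub hν0.le]
      rw [← hcast]
      exact_mod_cast this
    have hp : (0 : ℝ) < ((M : ℝ) - ν0) ^ c := by positivity
    have hDe : D * ((M : ℝ) - ν0) ^ c = ∑ s ∈ Finset.Icc 1 c, (num (srt (ν s) s) St : ℝ) *
        (M : ℝ) ^ (c - s) * (c.factorial : ℝ) := by
      rw [hD, Finset.sum_mul]
      refine Finset.sum_congr rfl fun s _ => ?_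
      rw [div_mul_cancel₀ _ hp.ne']
    rw [← hDe] at h3'
    have h3'' : (num (srt M c) U : ℝ) * ((M : ℝ) - ν0) ^ c ≤
        ((1 + D) * num (tl M ν 0 c 0) U) * ((M : ℝ) - ν0) ^ c := by
      refine h3'.trans (le_of_eq ?_)
      ring
    exact le_of_mul_le_mul_right h3'' hp
  obtain ⟨m, hm⟩ : ∃ m : ℝ, m = (tl M ν 0 e 0).card := ⟨_, rfl⟩
  obtain ⟨n, hn⟩ : ∃ n : ℝ, n = (tl M ν 0 c 0).card := ⟨_, rfl⟩
  obtain ⟨ρ, hρ⟩ : ∃ ρ : ℝ, ρ = num (srt M e) R := ⟨_, rfl⟩
  obtain ⟨u0, hu0⟩ : ∃ u0 : ℝ, u0 = num (tl M ν 0 c 0) U := ⟨_, rfl⟩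
  obtain ⟨A, hA⟩ : ∃ A : ℝ, A = num (srt M c) U := ⟨_, rfl⟩
  have hm0 : 0 ≤ m := by rw [hm]; exact Nat.cast_nonneg _
  have hn0 : 0 ≤ n := by rw [hn]; exact Nat.cast_nonneg _
  have hρ0 : 0 ≤ ρ := by rw [hρ]; exact Nat.cast_nonneg _
  have hu00 : 0 ≤ u0 := by rw [hu0]; exact Nat.cast_nonneg _
  have hA0 : 0 ≤ A := by rw [hA]; exact Nat.cast_nonneg _
  have r4 : u0 * m ≤ ρ * n := by
    rw [hu0, hm, hρ, hn]
    have : num (tl M ν 0 c 0) U * (tl M ν 0 e 0).card ≤
        num (srt M e) R * (tl M ν 0 c 0).card :=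
      (Nat.mul_le_mul_right _ h4').trans (h4.trans (Nat.mul_le_mul_right _ h4''))
    exact_mod_cast this
  have r5 : n ≤ num (srt M c) St := by rw [hn]; exact_mod_cast h5
  have r6 : (num (srt M e) St : ℝ) - S ≤ m := by
    rw [hS, hm]
    have : (num (srt M e) St : ℝ) ≤ (tl M ν 0 e 0).card +
        ∑ s ∈ Finset.Icc 1 e, (num (srt (ν s) s) St : ℝ) * (M : ℝ) ^ (e - s) := by
      exact_mod_cast h6
    linarith
  rw [← hA] at r1 r3
  rw [← hρ] at r2
  rw [← hu0] at r3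
  have hdiff : (num (srt M d) St : ℝ) - num (srt N d) St = A := by linarith
  rw [hdiff]
  have hY : 0 ≤ (num (srt M c) St : ℝ) := Nat.cast_nonneg _
  have hZ : ρ ≤ (num (srt M d) St : ℝ) - X := by linarith
  have hD1 : 0 ≤ 1 + D := by linarith
  calc A * ((num (srt M e) St : ℝ) - S) ≤ A * m := mul_le_mul_of_nonneg_left r6 hA0
    _ ≤ ((1 + D) * u0) * m := mul_le_mul_of_nonneg_right r3 hm0
    _ = (1 + D) * (u0 * m) := by ring
    _ ≤ (1 + D) * (ρ * n) := mul_le_mul_of_nonneg_left r4 hD1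
    _ ≤ (1 + D) * (((num (srt M d) St : ℝ) - X) * num (srt M c) St) :=
      mul_le_mul_of_nonneg_left (mul_le_mul hZ r5 hn0 (hρ0.trans hZ)) hD1

end Pool.Agent.Helper38.HF
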